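import Mathlib

/-! The area of a plane convex set of width at least one is at least `1 / √3`. -/

open MeasureTheory Set Matrix

noncomputable section

namespace Pool.Agent.MP_1e9c11_gt.H99

abbrev V2 : Type := Fin 2 → ℝ

/-- The width in every direction is at least one. -/
def Wid2 (L : Set V2) : Prop := ∀ u : V2, ∃ x ∈ L, ∃ y ∈ L, Real.sqrt (u ⬝ᵥ u) ≤ u ⬝ᵥ (x - y)

/-- Twice the oriented area of a triangle. -/
def dt (a b c : V2) : ℝ := (b 0 - a 0) * (c 1 - a 1) - (b 1 - a 1) * (c 0 - a 0)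

/-- The open standard triangle. -/
def T0 : Set V2 := {y | 0 < y 0 ∧ 0 < y 1 ∧ y 0 + y 1 < 1}

theorem T0_vol : ENNReal.ofReal (1 / 2) ≤ volume T0 := by
  have h := volume_regionBetween_eq_integral (μ := (volume : Measure ℝ)) (s := Ioo 0 1)
    (f := fun _ => 0) (g := fun x => 1 - x) (by simp)
    ((Continuous.integrableOn_Icc (by fun_prop)).mono_set Ioo_subset_Icc_self) measurableSet_Ioo
    (fun x hx => by linarith [hx.2])
  have hi : ∫ x in Ioo (0 : ℝ) 1, ((fun x => 1 - x) - fun _ => 0 : ℝ → ℝ) x = 1 / 2 := by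
    rw [← integral_Ioc_eq_integral_Ioo, ← intervalIntegral.integral_of_le zero_le_one]
    simp only [Pi.sub_apply, sub_zero]
    rw [intervalIntegral.integral_sub (by simp) (by simp)]
    norm_num
  rw [hi, ← Measure.volume_eq_prod, ← (volume_preserving_finTwoArrow ℝ).measure_preimage
    (measurableSet_regionBetween (by fun_prop) (by fun_prop)
      measurableSet_Ioo).nullMeasurableSet] at h
  refine h.ge.trans (measure_mono ?_)
  rintro y ⟨h0, h1, h2⟩
  exact ⟨h0.1, h1, by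
    have : y 1 < 1 - y 0 := h2
    linarith⟩

theorem tri_vol {S : Set V2} (a b c : V2)
    (h : ∀ α β γ : ℝ, 0 < α → 0 < β → 0 < γ → α + β + γ = 1 → α • a + β • b + γ • c ∈ S) :
    ENNReal.ofReal (dt a b c / 2) ≤ volume S := by
  have h1 : (fun x => a + x) '' (Matrix.toLin' (Matrix.of ![b - a, c - a])ᵀ '' T0) ⊆ S := by
    rintro _ ⟨_, ⟨y, ⟨h0, h1, h2⟩, rfl⟩, rfl⟩
    convert h (1 - (y 0 + y 1)) (y 0) (y 1) (by linarith) h0 h1 (by ring) using 1
    funext i
    fin_cases i <;> simp <;> ring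
  refine le_trans ?_ (measure_mono h1)
  rw [image_add_left, measure_preimage_add, Measure.addHaar_image_linearMap,
    LinearMap.det_toLin', Matrix.det_transpose]
  have h2 : dt a b c ≤ |(Matrix.of ![b - a, c - a]).det| := by
    refine le_trans (le_of_eq ?_) (le_abs_self _)
    simp [Matrix.det_fin_two, dt]
  refine le_trans (ENNReal.ofReal_le_ofReal (q := |(Matrix.of ![b - a, c - a]).det| * (1 / 2))
    (by linarith)) ?_
  rw [ENNReal.ofReal_mul (abs_nonneg _)]
  gcongr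
  exact T0_vol

theorem comb {L : Set V2} (hc : Convex ℝ L) {a b c : V2} (ha : a ∈ L) (hb : b ∈ L) (hc' : c ∈ L)
    {α β γ : ℝ} (h1 : 0 < α) (h2 : 0 < β) (h3 : 0 < γ) (h : α + β + γ = 1) :
    α • a + β • b + γ • c ∈ L := by
  have := hc.sum_mem (t := Finset.univ) (w := ![α, β, γ]) (z := ![a, b, c])
    (fun i _ => by fin_cases i <;> simp <;> linarith)
    (by simp [Fin.sum_univ_three, h]) (fun i _ => by fin_cases i <;> simpa)
  simpa [Fin.sum_univ_three] using this

theorem dt_comb (a b c p q : V2) {α β γ : ℝ} (h : α + β + γ = 1) :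
    dt (α • a + β • b + γ • c) p q = α * dt a p q + β * dt b p q + γ * dt c p q := by
  have : γ = 1 - α - β := by linarith
  subst this
  simp only [dt, Pi.add_apply, Pi.smul_apply, smul_eq_mul]
  ring

/-- The part of `L` beyond the side `b c`. -/
theorem cap {L : Set V2} (hc : Convex ℝ L) (hW : Wid2 L) {b c : V2} (hb : b ∈ L) (hc' : c ∈ L)
    {D : ℝ} (hD : 0 ≤ D) (hm : ∀ p ∈ L, ∀ q ∈ L, ∀ r ∈ L, dt p q r ≤ D) :
    ∃ α : ℝ, 0 ≤ α ∧ α ≤ D ∧ (b 0 - c 0) ^ 2 + (b 1 - c 1) ^ 2 ≤ (D + α) ^ 2 ∧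
      ENNReal.ofReal (α / 2) ≤ volume (L ∩ {p | dt p b c < 0}) := by
  obtain ⟨x, hx, y, hy, h⟩ := hW ![b 1 - c 1, c 0 - b 0]
  have e : ![b 1 - c 1, c 0 - b 0] ⬝ᵥ (x - y) = dt x b c + dt y c b := by
    simp [dt, dotProduct]
    ring
  have h1 := hm x hx b hb c hc'
  have h2 := hm y hy c hc' b hb
  have h3 := le_max_left (dt y c b) 0
  have h4 := le_max_right (dt y c b) 0
  refine ⟨max (dt y c b) 0, h4, max_le h2 hD, ?_, ?_⟩
  · have h5 := Real.sqrt_le_iff.1 (h.trans (b := _) (c := D + max (dt y c b) 0) (by linarith))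
    refine le_trans (le_of_eq ?_) h5.2
    simp
    ring
  · rcases le_or_gt (dt y c b) 0 with h6 | h6
    · simp [h6]
    · rw [max_eq_left h6.le]
      refine tri_vol y c b fun α β γ a1 a2 a3 a4 => ⟨comb hc hy hc' hb a1 a2 a3 a4, ?_⟩
      change dt _ b c < 0
      rw [dt_comb _ _ _ _ _ a4]
      have := mul_pos a1 h6
      simp only [dt] at this ⊢
      linarith

theorem pal {L : Set V2} (hK : IsCompact L) (hc : Convex ℝ L) (hW : Wid2 L) :
    ENNReal.ofReal (Real.sqrt 3 / 3) ≤ volume L := by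
  obtain ⟨x, hx, y, hy, hxy⟩ := hW ![1, 0]
  obtain ⟨⟨a, b, c⟩, ⟨ha, hb, hc'⟩, hmax⟩ := (hK.prod (hK.prod hK)).exists_isMaxOn
    ⟨(x, x, x), hx, hx, hx⟩ (f := fun t : V2 × V2 × V2 => dt t.1 t.2.1 t.2.2)
    (by unfold dt; fun_prop)
  set D := dt a b c with hD
  have hm : ∀ p ∈ L, ∀ q ∈ L, ∀ r ∈ L, dt p q r ≤ D := fun p hp q hq r hr =>
    hmax (a := (p, q, r)) ⟨hp, hq, hr⟩
  have h0 : 0 ≤ D := by simpa [dt] using hm x hx x hx x hx
  have hpos : 0 < D := by
    obtain ⟨α, h1, h2, h3, -⟩ := cap hc hW hx hy h0 hm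
    simp [dotProduct] at hxy
    nlinarith [sq_nonneg (x 1 - y 1)]
  obtain ⟨α, a1, a2, a3, a4⟩ := cap hc hW hb hc' h0 hm
  obtain ⟨β, b1, b2, b3, b4⟩ := cap hc hW hc' ha h0 hm
  obtain ⟨γ, c1, c2, c3, c4⟩ := cap hc hW ha hb h0 hm
  have hs : Real.sqrt 3 ^ 2 = 3 := Real.sq_sqrt (by norm_num)
  have hw : 2 * Real.sqrt 3 * D ≤ (b 0 - c 0) ^ 2 + (b 1 - c 1) ^ 2 +
      ((c 0 - a 0) ^ 2 + (c 1 - a 1) ^ 2) + ((a 0 - b 0) ^ 2 + (a 1 - b 1) ^ 2) := by
    rw [hD, dt]
    nlinarith [sq_nonneg (2 * c 0 - a 0 - b 0 + Real.sqrt 3 * (b 1 - a 1)),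
      sq_nonneg (2 * c 1 - a 1 - b 1 - Real.sqrt 3 * (b 0 - a 0))]
  have key : Real.sqrt 3 / 3 ≤ D / 2 + α / 2 + β / 2 + γ / 2 := by
    refine le_of_mul_le_mul_left ?_ hpos
    nlinarith [mul_le_mul_of_nonneg_left a2 a1, mul_le_mul_of_nonneg_left b2 b1,
      mul_le_mul_of_nonneg_left c2 c1]
  have d4 : ENNReal.ofReal (D / 2) ≤
      volume (L ∩ {p | 0 < dt p b c ∧ 0 < dt p c a ∧ 0 < dt p a b}) := by
    refine tri_vol a b c fun α β γ a1 a2 a3 a4 => ⟨comb hc ha hb hc' a1 a2 a3 a4, ?_⟩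
    have h1 := mul_pos a1 hpos
    have h2 := mul_pos a2 hpos
    have h3 := mul_pos a3 hpos
    simp only [mem_ofPred_eq, dt_comb _ _ _ _ _ a4]
    simp only [hD, dt] at h1 h2 h3 ⊢
    exact ⟨by linarith, by linarith, by linarith⟩
  have hsum : ∀ p, dt p b c + dt p c a + dt p a b = D := fun p => by
    simp only [hD, dt]
    ring
  have me : ∀ q r : V2, MeasurableSet (L ∩ {p | dt p q r < 0}) := fun q r =>
    hK.measurableSet.inter (measurableSet_lt (by unfold dt; fun_prop) measurable_const)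
  refine (ENNReal.ofReal_le_ofReal key).trans ?_
  rw [ENNReal.ofReal_add (by positivity) (by positivity),
    ENNReal.ofReal_add (by positivity) (by positivity),
    ENNReal.ofReal_add (by positivity) (by positivity)]
  refine (add_le_add (add_le_add (add_le_add d4 a4) b4) c4).trans ?_
  rw [← measure_union _ (me b c), ← measure_union _ (me c a), ← measure_union _ (me a b)]
  · exact measure_mono (union_subset (union_subset (union_subset inter_subset_left
      inter_subset_left) inter_subset_left) inter_subset_left)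
  all_goals
    rw [Set.disjoint_left]
    rintro p hp ⟨hL, h⟩
    have h1 := hsum p
    have h2 := hm p hL b hb c hc'
    have h3 := hm p hL c hc' a ha
    have h4 := hm p hL a ha b hb
    simp only [mem_union, mem_inter_iff, mem_ofPred_eq] at hp h
  · rcases hp with (hp | hp) | hp
    · linarith [hp.2.2.2]
    · linarith [hp.2]
    · linarith [hp.2]
  · rcases hp with hp | hp
    · linarith [hp.2.2.1]
    · linarith [hp.2]
  · linarith [hp.2.1]

end Pool.Agent.MP_1e9c11_gt.H99
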