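import Pool.Agent.MP_1e9c11_gt.H99.Pal
import Pool.Agent.MP_1e9c11_gt.H98.Asym

/-! The volume of a convex body of width at least one that contains a square. -/

open MeasureTheory Set Matrix Filter Topology
open scoped Pointwise

noncomputable section

namespace Pool.Agent.MP_1e9c11_gt.H99

open H98

theorem seg_prod {L L' : Set (ℝ × V2)} (hL : IsCompact L) (hL' : MeasurableSet L') {h : ℝ}
    (h0 : 0 ≤ h) (H : ∀ x ∈ L, ∀ τ ∈ Icc 0 h, (x.1 + τ, x.2) ∈ L') :
    volume L + ENNReal.ofReal h * volume (Prod.snd '' L) ≤ volume L' := by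
  have hm := (hL.image continuous_snd).measurableSet
  rw [Measure.volume_eq_prod, Measure.prod_apply_symm hL.measurableSet,
    Measure.prod_apply_symm hL', ← lintegral_indicator_const hm,
    ← lintegral_add_right _ (measurable_const.indicator hm)]
  refine lintegral_mono fun y => ?_
  by_cases hy : y ∈ Prod.snd '' L
  · obtain ⟨x, hx, rfl⟩ := hy
    have hc : IsCompact ((fun t => (t, x.2)) ⁻¹' L) :=
      (IsClosedEmbedding.of_continuous_injective_isClosedMap (by fun_prop)
        (Prod.mk_left_injective _) (isClosedMap_prodMk_right _)).isCompact_preimage hL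
    obtain ⟨m, hm, hm'⟩ := hc.exists_isGreatest ⟨x.1, hx⟩
    rw [indicator_of_mem (mem_image_of_mem _ hx), ← add_sub_cancel_left m h, ← Real.volume_Ioc,
      ← measure_union (disjoint_left.2 fun t ht ht' => (hm' ht).not_gt ht'.1) measurableSet_Ioc]
    refine measure_mono (union_subset (fun t ht => ?_) fun t ht => ?_)
    · simpa using H _ ht 0 ⟨le_rfl, h0⟩
    · simpa using H _ hm (t - m) ⟨by linarith [ht.1], by linarith [ht.2]⟩
  · have : (fun t => (t, y)) ⁻¹' L = ∅ :=
      eq_empty_of_forall_notMem fun t ht => hy ⟨_, ht, rfl⟩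
    simp [this, hy]

/-- The projection along the coordinate direction `i`. -/
def pr (i : Fin 3) (x : V3) : V2 := fun j => x (i.succAbove j)

theorem seg (i : Fin 3) {L L' : Set V3} (hL : IsCompact L) (hL' : IsCompact L') {h : ℝ}
    (h0 : 0 ≤ h) (H : ∀ x ∈ L, ∀ τ ∈ Icc 0 h, x + Pi.single i τ ∈ L') :
    volume L + ENNReal.ofReal h * volume (pr i '' L) ≤ volume L' := by
  set e := MeasurableEquiv.piFinSuccAbove (fun _ : Fin 3 => ℝ) i
  have he : ∀ x, e x = (x i, pr i x) := fun _ => rfl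
  have hc : Continuous e := by
    rw [funext he]
    unfold pr
    fun_prop
  have hv : ∀ S : Set V3, volume (e '' S) = volume S := fun S => by
    rw [← (volume_preserving_piFinSuccAbove (fun _ : Fin 3 => ℝ) i).measure_preimage_equiv,
      preimage_image_eq _ e.injective]
  have := seg_prod (hL.image hc) (hL'.image hc).measurableSet h0 (by
    rintro _ ⟨x, hx, rfl⟩ τ hτ
    refine ⟨_, H x hx τ hτ, ?_⟩
    rw [he, he]
    refine Prod.ext (by simp) (funext fun j => ?_)
    simp [pr])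
  rwa [hv, hv, image_image] at this

theorem pr_vol (i : Fin 3) {K : Set V3} (hK : IsCompact K) (hc : Convex ℝ K) (hW : Wid K) :
    ENNReal.ofReal (Real.sqrt 3 / 3) ≤ volume (pr i '' K) := by
  refine pal (hK.image (by unfold pr; fun_prop))
    (hc.linear_image (LinearMap.funLeft ℝ ℝ i.succAbove)) fun u => ?_
  obtain ⟨x, hx, y, hy, h⟩ := hW (i.insertNth 0 u)
  refine ⟨_, mem_image_of_mem _ hx, _, mem_image_of_mem _ hy, ?_⟩
  simpa [dotProduct, Fin.sum_univ_succAbove _ i, pr, -Fin.sum_univ_two] using h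

theorem vol_axis {K : Set V3} (hK : IsCompact K) (hc : Convex ℝ K) (hW : Wid K) {s : ℝ}
    (hs : 0 ≤ s) (hq : ∀ α ∈ Icc 0 s, ∀ β ∈ Icc 0 s, Pi.single 0 α + Pi.single 1 β ∈ K) :
    ENNReal.ofReal (2 * s * Real.sqrt 3 / 9) ≤ volume K := by
  rw [ENNReal.ofReal_le_iff_le_toReal hK.measure_lt_top.ne]
  set V := (volume K).toReal with hV
  have key : ∀ t : ℝ, 0 < t → 2 * s * Real.sqrt 3 / 3 ≤ V * (3 + 3 * t + t ^ 2) := by
    intro t ht
    set L := (fun p : V3 × ℝ => p.1 + Pi.single 1 p.2) '' K ×ˢ Icc 0 (t * s)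
    have hL : IsCompact L := (hK.prod isCompact_Icc).image
      (continuous_fst.add ((continuous_single 1).comp continuous_snd))
    have h1 := seg 1 hK hL (h := t * s) (by positivity) fun x hx τ hτ => ⟨(x, τ), ⟨hx, hτ⟩, rfl⟩
    have hd : ∀ τ ∈ Icc 0 (t * s), τ / t ∈ Icc 0 s := fun τ hτ =>
      ⟨div_nonneg hτ.1 ht.le, (div_le_iff₀' ht).2 hτ.2⟩
    have h2 := seg 0 hL (hK.smul (1 + t)) (h := t * s) (by positivity) (by
      rintro _ ⟨⟨x, σ⟩, ⟨hx, hσ⟩, rfl⟩ τ hτ
      refine ⟨_, hc hx (hq _ (hd τ hτ) _ (hd σ hσ)) (a := 1 / (1 + t)) (b := t / (1 + t))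
        (by positivity) (by positivity) (by field_simp), ?_⟩
      funext k
      fin_cases k <;> simp <;> field_simp)
    have h3 : volume (pr 0 '' K) ≤ volume (pr 0 '' L) :=
      measure_mono (image_mono fun x hx => ⟨(x, 0), ⟨hx, le_rfl, by positivity⟩, by simp⟩)
    have h4 : volume K + ENNReal.ofReal (t * s) * ENNReal.ofReal (Real.sqrt 3 / 3) +
        ENNReal.ofReal (t * s) * ENNReal.ofReal (Real.sqrt 3 / 3) ≤ volume ((1 + t) • K) := by
      refine le_trans (add_le_add (le_trans ?_ h1) ?_) h2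
      · gcongr
        exact pr_vol 1 hK hc hW
      · gcongr
        exact (pr_vol 0 hK hc hW).trans h3
    rw [Measure.addHaar_smul, ← ENNReal.ofReal_toReal hK.measure_lt_top.ne, ← hV,
      ← ENNReal.ofReal_mul (by positivity), ← ENNReal.ofReal_mul (by positivity),
      ← ENNReal.ofReal_add (by positivity) (by positivity),
      ← ENNReal.ofReal_add (by positivity) (by positivity),
      ENNReal.ofReal_le_ofReal_iff (by positivity), abs_of_nonneg (by positivity)] at h4
    simp only [Module.finrank_fintype_fun_eq_card, Fintype.card_fin] at h4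
    refine le_of_mul_le_mul_left ?_ ht
    nlinarith
  have h5 : Tendsto (fun t : ℝ => V * (3 + 3 * t + t ^ 2)) (𝓝[>] 0) (𝓝 (V * (3 + 3 * 0 + 0 ^ 2))) :=
    (Continuous.tendsto (by fun_prop) 0).mono_left nhdsWithin_le_nhds
  have := ge_of_tendsto h5 (eventually_mem_nhdsWithin.mono key)
  linarith

theorem vol_square {K : Set V3} (hK : IsCompact K) (hc : Convex ℝ K) (hW : Wid K) {c u v : V3}
    (hu : u ⬝ᵥ u = 1) (hv : v ⬝ᵥ v = 1) (huv : u ⬝ᵥ v = 0) (h1 : c + (1 / 2 : ℝ) • u ∈ K)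
    (h2 : c - (1 / 2 : ℝ) • u ∈ K) (h3 : c + (1 / 2 : ℝ) • v ∈ K) (h4 : c - (1 / 2 : ℝ) • v ∈ K) :
    ENNReal.ofReal (Real.sqrt 6 / 9) ≤ volume K := by
  set r := Real.sqrt 2 with hr
  have r2 : r ^ 2 = 2 := Real.sq_sqrt (by norm_num)
  have r0 : 0 < r := by positivity
  obtain ⟨k1, k2, k3, k4⟩ := shift hK hc hW (c - (1 / 2 : ℝ) • v)
  set K' := (fun x => -(c - (1 / 2 : ℝ) • v) + x) '' K
  set Q : Matrix (Fin 3) (Fin 3) ℝ := Matrix.of ![(r / 2) • (u + v), (r / 2) • (v - u), u ⨯₃ v]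
    with hQ
  simp only [dotProduct, Fin.sum_univ_three] at hu hv huv
  have hn : (u 1 * v 2 - u 2 * v 1) ^ 2 + (u 2 * v 0 - u 0 * v 2) ^ 2 +
      (u 0 * v 1 - u 1 * v 0) ^ 2 = 1 := by
    linear_combination (v 0 * v 0 + v 1 * v 1 + v 2 * v 2) * hu + hv -
      (u 0 * v 0 + u 1 * v 1 + u 2 * v 2) * huv
  have hQQ : Q * Qᵀ = 1 := by
    ext i j
    fin_cases i <;> fin_cases j <;>
      simp [hQ, Matrix.mul_apply, Fin.sum_univ_three, cross_apply]
    · linear_combination (r ^ 2 / 4) * (hu + hv + 2 * huv) + (1 / 2) * r2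
    · linear_combination (r ^ 2 / 4) * (hv - hu)
    · ring
    · linear_combination (r ^ 2 / 4) * (hv - hu)
    · linear_combination (r ^ 2 / 4) * (hu + hv - 2 * huv) + (1 / 2) * r2
    · ring
    · ring
    · ring
    · linear_combination hn
  have hdet : |Q.det| = 1 := by
    have := congrArg det hQQ
    rw [det_mul, det_transpose, det_one, mul_self_eq_one_iff] at this
    rcases this with h | h <;> simp [h]
  have h5 := vol_axis (K := Matrix.toLin' Q '' K') (s := r / 2)
    (k1.image (LinearMap.continuous_of_finiteDimensional _)) (k2.linear_image _) (fun w => by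
      obtain ⟨x, hx, y, hy, h⟩ := k3 (w ᵥ* Q)
      refine ⟨_, mem_image_of_mem _ hx, _, mem_image_of_mem _ hy, ?_⟩
      rw [← dotProduct_mulVec, ← dotProduct_mulVec, ← mulVec_transpose, mulVec_mulVec, hQQ,
        one_mulVec] at h
      rwa [← map_sub, toLin'_apply]) (by positivity) fun α hα β hβ => by
      have ha : ∀ α ∈ Icc 0 (r / 2), 0 ≤ α * r ∧ 0 ≤ 1 - α * r := fun α hα =>
        ⟨mul_nonneg hα.1 r0.le, by nlinarith [hα.2]⟩
      refine ⟨(Pi.single 0 α + Pi.single 1 β) ᵥ* Q, ?_, by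
        rw [toLin'_apply, ← mulVec_transpose, mulVec_mulVec, hQQ, one_mulVec]⟩
      refine ⟨_, hc (hc h4 h1 (ha α hα).2 (ha α hα).1 (by ring))
        (hc h2 h3 (ha α hα).2 (ha α hα).1 (by ring)) (ha β hβ).2 (ha β hβ).1 (by ring), ?_⟩
      funext k
      simp [hQ, vecMul, dotProduct, Fin.sum_univ_three]
      ring
  rw [Measure.addHaar_image_linearMap, LinearMap.det_toLin', hdet, ENNReal.ofReal_one, one_mul,
    k4] at h5
  refine le_trans (le_of_eq ?_) h5
  rw [show (6 : ℝ) = 2 * 3 by norm_num, Real.sqrt_mul (by norm_num)]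
  congr 1
  ring

end Pool.Agent.MP_1e9c11_gt.H99
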