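import Pool.Agent.MP_1e9c11_gt.H99.Seg
import Pool.Agent.MP_36f34d_co.H52.BU

/-! A convex body of width at least one almost contains a square with unit diagonals. -/

open MeasureTheory Set Matrix Filter Topology

noncomputable section

namespace Pool.Agent.MP_1e9c11_gt.H99

open H98

abbrev V5 : Type := Fin 5 → ℝ

/-- Traceless symmetric matrices. -/
def sy (v : V5) : Matrix (Fin 3) (Fin 3) ℝ := !![v 0, v 2, v 3; v 2, v 1, v 4; v 3, v 4, -v 0 - v 1]

/-- Half of the sum of the squares of the entries. -/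
def qf (v : V5) : ℝ := v 0 ^ 2 + v 0 * v 1 + v 1 ^ 2 + v 2 ^ 2 + v 3 ^ 2 + v 4 ^ 2

theorem sq_le_qf (v : V5) (i : Fin 5) : v i ^ 2 ≤ 2 * qf v := by
  unfold qf
  fin_cases i <;> simp <;> nlinarith [sq_nonneg (v 0 + v 1), sq_nonneg (v 0), sq_nonneg (v 1),
    sq_nonneg (v 2), sq_nonneg (v 3), sq_nonneg (v 4)]

theorem qf_pos {v : V5} (h : v ≠ 0) : 0 < qf v := by
  obtain ⟨i, hi⟩ := Function.ne_iff.1 h
  have := sq_le_qf v i
  have := sq_pos_of_ne_zero hi
  linarith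

theorem qf_smul (t : ℝ) (v : V5) : qf (t • v) = t ^ 2 * qf v := by
  simp only [qf, Pi.smul_apply, smul_eq_mul]
  ring

theorem qf_unit {v : V5} (h : v ≠ 0) : qf ((Real.sqrt (qf v))⁻¹ • v) = 1 := by
  rw [qf_smul, inv_pow, Real.sq_sqrt (qf_pos h).le, inv_mul_cancel₀ (qf_pos h).ne']

theorem bu_sphere (g : V5 → Fin 4 → ℝ) (hg : Continuous g) (ho : ∀ v, g (-v) = -g v) :
    ∃ v, qf v = 1 ∧ g v = 0 := by
  have hq : Continuous fun v => Real.sqrt (qf v) := by
    unfold qf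
    fun_prop
  obtain ⟨C, hC⟩ := (isCompact_closedBall (0 : V5) 2).exists_bound_of_continuousOn hg.continuousOn
  obtain ⟨v, hv, h⟩ := MP_36f34d_co.H52.bu 4
    (fun v => Real.sqrt (qf v) • g ((Real.sqrt (qf v))⁻¹ • v)) (continuous_iff_continuousAt.2
      fun v => by
      by_cases hv : v = 0
      · subst hv
        have h0 : Real.sqrt (qf 0) = 0 := by simp [qf]
        rw [ContinuousAt, h0, zero_smul]
        refine squeeze_zero_norm (a := fun v => Real.sqrt (qf v) * C) (fun v => ?_)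
          (by simpa [h0] using (hq.tendsto 0).mul_const C)
        rw [norm_smul, Real.norm_of_nonneg (Real.sqrt_nonneg _)]
        refine mul_le_mul_of_nonneg_left (hC _ ?_) (Real.sqrt_nonneg _)
        by_cases hv : v = 0
        · simp [hv]
        · rw [mem_closedBall_zero_iff, pi_norm_le_iff_of_nonneg zero_le_two]
          intro i
          have := sq_le_qf ((Real.sqrt (qf v))⁻¹ • v) i
          rw [qf_unit hv] at this
          exact abs_le_of_sq_le_sq' (by linarith) zero_le_two |> abs_le.2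
      · exact hq.continuousAt.smul (hg.continuousAt.comp
          ((hq.continuousAt.inv₀ (Real.sqrt_pos.2 (qf_pos hv)).ne').smul continuousAt_id)))
    fun v => by
      have : qf (-v) = qf v := by simp [qf]
      rw [this, smul_neg, ho, smul_neg]
  exact ⟨_, qf_unit hv, (smul_eq_zero.1 h).resolve_left (Real.sqrt_pos.2 (qf_pos hv)).ne'⟩

theorem eig {v : V5} (h : qf v = 1) (hd : (sy v).det = 0) : ∃ u : V3, u ⬝ᵥ u = 1 ∧ sy v *ᵥ u = u := by
  have h1 : (sy v - 1).det = 0 := by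
    simp [sy, det_fin_three, qf] at h hd ⊢
    linear_combination h + hd
  obtain ⟨w, hw, h2⟩ := exists_mulVec_eq_zero_iff.2 h1
  rw [sub_mulVec, one_mulVec, sub_eq_zero] at h2
  have h3 : 0 < w ⬝ᵥ w := lt_of_le_of_ne (dotProduct_self_nonneg' w)
    fun h => hw (dotProduct_self_eq_zero.1 h.symm)
  refine ⟨(Real.sqrt (w ⬝ᵥ w))⁻¹ • w, ?_, by rw [mulVec_smul, h2]⟩
  rw [smul_dotProduct, dotProduct_smul, smul_eq_mul, smul_eq_mul, ← mul_assoc, ← mul_inv,
    Real.mul_self_sqrt h3.le, inv_mul_cancel₀ h3.ne']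
where
  dotProduct_self_nonneg' (w : V3) : 0 ≤ w ⬝ᵥ w := Finset.sum_nonneg fun i _ => mul_self_nonneg _

theorem uniq {v : V5} (h : qf v = 1) {u w : V3} (hu : u ⬝ᵥ u = 1) (hw : w ⬝ᵥ w = 1)
    (eu : sy v *ᵥ u = u) (ew : sy v *ᵥ w = w) : w = u ∨ w = -u := by
  have a0 := congrFun eu 0
  have a1 := congrFun eu 1
  have a2 := congrFun eu 2
  have b0 := congrFun ew 0
  have b1 := congrFun ew 1
  have b2 := congrFun ew 2
  simp [sy, mulVec, dotProduct, Fin.sum_univ_three, qf] at a0 a1 a2 b0 b1 b2 hu hw h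
  set x := u 1 * w 2 - u 2 * w 1 with hx
  set y := u 2 * w 0 - u 0 * w 2 with hy
  set z := u 0 * w 1 - u 1 * w 0 with hz
  have c0 : v 0 * x + v 2 * y + v 3 * z = -2 * x := by
    linear_combination (exp := 1) -w 2 * a1 + w 1 * a2 - u 1 * b2 + u 2 * b1
  have c1 : v 2 * x + v 1 * y + v 4 * z = -2 * y := by
    linear_combination (exp := 1) -w 0 * a2 + w 2 * a0 - u 2 * b0 + u 0 * b2
  have c2 : v 3 * x + v 4 * y + (-v 0 - v 1) * z = -2 * z := by
    linear_combination (exp := 1) -w 1 * a0 + w 0 * a1 - u 0 * b1 + u 1 * b0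
  have cs : ∀ p q r : ℝ, (p * x + q * y + r * z) ^ 2 ≤
      (p ^ 2 + q ^ 2 + r ^ 2) * (x ^ 2 + y ^ 2 + z ^ 2) := fun p q r => by
    nlinarith [sq_nonneg (p * y - q * x), sq_nonneg (q * z - r * y), sq_nonneg (r * x - p * z)]
  have d0 := cs (v 0) (v 2) (v 3)
  have d1 := cs (v 2) (v 1) (v 4)
  have d2 := cs (v 3) (v 4) (-v 0 - v 1)
  rw [c0] at d0
  rw [c1] at d1
  rw [c2] at d2
  have hn : x ^ 2 + y ^ 2 + z ^ 2 ≤ 0 := by
    have : (x ^ 2 + y ^ 2 + z ^ 2) * (v 0 ^ 2 + v 0 * v 1 + v 1 ^ 2 + v 2 ^ 2 + v 3 ^ 2 + v 4 ^ 2) =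
      x ^ 2 + y ^ 2 + z ^ 2 := by rw [h, mul_one]
    linarith
  set s := u 0 * w 0 + u 1 * w 1 + u 2 * w 2 with hs
  have lg : x ^ 2 + y ^ 2 + z ^ 2 = 1 - s ^ 2 := by
    linear_combination (exp := 1) (w 0 * w 0 + w 1 * w 1 + w 2 * w 2) * hu + hw
  have e : (w 0 - s * u 0) ^ 2 + (w 1 - s * u 1) ^ 2 + (w 2 - s * u 2) ^ 2 = 1 - s ^ 2 := by
    linear_combination (exp := 1) s ^ 2 * hu + hw
  have p0 := sq_nonneg (w 0 - s * u 0)
  have p1 := sq_nonneg (w 1 - s * u 1)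
  have p2 := sq_nonneg (w 2 - s * u 2)
  have z0 : ∀ t : ℝ, t ^ 2 ≤ 0 → t = 0 := fun t ht => pow_eq_zero_iff two_ne_zero |>.1
    (le_antisymm ht (sq_nonneg t))
  have e0 := sub_eq_zero.1 (z0 (w 0 - s * u 0) (by linarith only [p1, p2, e, lg, hn]))
  have e1 := sub_eq_zero.1 (z0 (w 1 - s * u 1) (by linarith only [p0, p2, e, lg, hn]))
  have e2 := sub_eq_zero.1 (z0 (w 2 - s * u 2) (by linarith only [p0, p1, e, lg, hn]))
  have hs1 : s * s = 1 := by linarith only [p0, p1, p2, e, lg, hn]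
  rcases mul_self_eq_one_iff.1 hs1 with h | h <;> [left; right] <;> funext i <;> fin_cases i <;>
    simp [e0, e1, e2, h]

theorem chord {K : Set V3} (hK : IsCompact K) (hc : Convex ℝ K) (hW : Wid K) {u : V3}
    (hu : u ⬝ᵥ u = 1) : ∃ c, c + (1 / 2 : ℝ) • u ∈ K ∧ c - (1 / 2 : ℝ) • u ∈ K := by
  have h : u ∈ (fun p : V3 × V3 => p.1 - p.2) '' K ×ˢ K := by
    by_contra h
    obtain ⟨f, a, h1, h2⟩ := geometric_hahn_banach_closed_point
      ((hc.prod hc).linear_image (LinearMap.fst ℝ V3 V3 - LinearMap.snd ℝ V3 V3))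
      ((hK.prod hK).image (by fun_prop)).isClosed h
    set w : V3 := fun i => f (Pi.single i 1)
    have e : ∀ x, f x = w ⬝ᵥ x := fun x => by
      conv_lhs => rw [pi_eq_sum_univ' x]
      simp [w, dotProduct, mul_comm]
    obtain ⟨x, hx, y, hy, h3⟩ := hW w
    have h4 := h1 _ ⟨(x, y), ⟨hx, hy⟩, rfl⟩
    have h5 : w ⬝ᵥ u ≤ Real.sqrt (w ⬝ᵥ w) := Real.le_sqrt_of_sq_le (by
      have := Finset.sum_mul_sq_le_sq_mul_sq Finset.univ w u
      simp only [dotProduct, ← sq] at hu ⊢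
      rwa [hu, mul_one] at this)
    rw [e] at h2 h4
    exact absurd (h3.trans_lt (h4.trans h2)) h5.not_gt
  obtain ⟨⟨x, y⟩, ⟨hx, hy⟩, rfl⟩ := h
  refine ⟨(1 / 2 : ℝ) • (x + y), ?_, ?_⟩
  · convert hx using 1
    module
  · convert hy using 1
    module

theorem square {K U : Set V3} (hK : IsCompact K) (hc : Convex ℝ K) (hW : Wid K) (hU : IsOpen U)
    (hU' : Convex ℝ U) (hKU : K ⊆ U) : ∃ c u v : V3, u ⬝ᵥ u = 1 ∧ v ⬝ᵥ v = 1 ∧ u ⬝ᵥ v = 0 ∧
      (c + (1 / 2 : ℝ) • u ∈ U ∧ c - (1 / 2 : ℝ) • u ∈ U) ∧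
      c + (1 / 2 : ℝ) • v ∈ U ∧ c - (1 / 2 : ℝ) • v ∈ U := by
  have hs : Continuous sy := by
    unfold sy
    fun_prop
  obtain ⟨M, hM⟩ := exists_continuous_forall_mem_convex_of_local_const
    (t := fun v : V5 => {c : V3 | ∀ u ∈ {u : V3 | u ⬝ᵥ u = 1}, qf v = 1 → sy v *ᵥ u = u →
      c + (1 / 2 : ℝ) • u ∈ U ∧ c - (1 / 2 : ℝ) • u ∈ U})
    (fun v c hc c' hc' a b ha hb hab u h1 h2 h3 => by
      constructor
      · convert hU' (hc u h1 h2 h3).1 (hc' u h1 h2 h3).1 ha hb hab using 1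
        rw [smul_add, smul_add, add_add_add_comm, ← add_smul, hab, one_smul]
      · convert hU' (hc u h1 h2 h3).2 (hc' u h1 h2 h3).2 ha hb hab using 1
        rw [smul_sub, smul_sub, ← add_sub_add_comm, ← add_smul, hab, one_smul])
    (fun v => by
      obtain ⟨c, h⟩ : ∃ c : V3, ∀ u : V3, u ⬝ᵥ u = 1 → qf v = 1 → sy v *ᵥ u = u →
          c + (1 / 2 : ℝ) • u ∈ U ∧ c - (1 / 2 : ℝ) • u ∈ U := by
        by_cases h : ∃ u : V3, u ⬝ᵥ u = 1 ∧ sy v *ᵥ u = u
        · obtain ⟨u, h1, h2⟩ := h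
          obtain ⟨c, h3, h4⟩ := chord hK hc hW h1
          refine ⟨c, fun w a b d => ?_⟩
          rcases uniq b h1 a h2 d with rfl | rfl
          · exact ⟨hKU h3, hKU h4⟩
          · rw [smul_neg, sub_neg_eq_add, ← sub_eq_add_neg]
            exact ⟨hKU h4, hKU h3⟩
        · exact ⟨0, fun u a _ b => absurd ⟨u, a, b⟩ h⟩
      refine ⟨c, IsCompact.eventually_forall_of_forall_eventually ?_ fun u hu => ?_⟩
      · refine (isCompact_closedBall 0 1).of_isClosed_subset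
          (isClosed_eq (by fun_prop) continuous_const) fun u hu => ?_
        have := norm_le_sqrt_dot u
        rw [show u ⬝ᵥ u = 1 from hu, Real.sqrt_one] at this
        exact mem_closedBall_zero_iff.2 this
      · refine IsOpen.mem_nhds ?_ (h u hu)
        simp only [imp_iff_not_or]
        refine (isOpen_ne_fun (by unfold qf; fun_prop) continuous_const).union
          ((isOpen_ne_fun (by fun_prop) continuous_snd).union
            ((hU.preimage (by fun_prop)).inter (hU.preimage (by fun_prop)))))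
  have hn : ∀ v, sy (-v) = -sy v := fun v => by
    ext i j
    fin_cases i <;> fin_cases j <;> simp [sy]
    ring
  obtain ⟨v, h1, h2⟩ := bu_sphere (fun v => Fin.cons (sy v).det (M v - M (-v)))
    (by fun_prop) fun v => by
      funext i
      refine Fin.cases ?_ (fun i => ?_) i
      · simp [hn, det_neg]
        ring
      · simp
  have h3 : (sy v).det = 0 := congrFun h2 0
  have h4 : M v = M (-v) := funext fun i => sub_eq_zero.1 (congrFun h2 i.succ)
  have h5 : qf (-v) = 1 := by simpa [qf] using h1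
  obtain ⟨u, a1, a2⟩ := eig h1 h3
  obtain ⟨w, b1, b2⟩ := eig h5 (by simp [hn, det_neg, h3])
  refine ⟨M v, u, w, a1, b1, ?_, hM v u a1 h1 a2, h4 ▸ hM (-v) w b1 h5 b2⟩
  have h6 : (sy v)ᵀ = sy v := by
    ext i j
    fin_cases i <;> fin_cases j <;> simp [sy]
  have h7 : u ⬝ᵥ sy v *ᵥ w = u ⬝ᵥ w := by
    rw [dotProduct_mulVec, ← mulVec_transpose, h6, a2]
  rw [hn, neg_mulVec, neg_eq_iff_eq_neg] at b2
  rw [b2, dotProduct_neg] at h7
  linarith

theorem main {K : Set V3} (hK : IsCompact K) (hc : Convex ℝ K) (hW : Wid K) :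
    ENNReal.ofReal (Real.sqrt 6 / 9) ≤ volume K := by
  refine ge_of_tendsto ((tendsto_measure_cthickening_of_isCompact hK).mono_left
    (nhdsWithin_le_nhds (s := Ioi 0))) (eventually_mem_nhdsWithin.mono fun ε hε => ?_)
  obtain ⟨c, u, v, h1, h2, h3, ⟨h4, h5⟩, h6, h7⟩ := square hK hc hW Metric.isOpen_thickening
    (hc.thickening ε) (Metric.self_subset_thickening hε K)
  have hs := Metric.thickening_subset_cthickening ε K
  refine vol_square hK.cthickening (hc.cthickening ε) (fun w => ?_) h1 h2 h3 (hs h4) (hs h5)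
    (hs h6) (hs h7)
  obtain ⟨x, hx, y, hy, h⟩ := hW w
  exact ⟨x, Metric.self_subset_cthickening K hx, y, Metric.self_subset_cthickening K hy, h⟩

end Pool.Agent.MP_1e9c11_gt.H99
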